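import Pool.Agent.Helper95.PW.Stmts

set_option autoImplicit false

/-!
# The row CID
-/

namespace Pool.Agent.Helper95.PW

open MeasureTheory Filter

theorem CID_dv {n : ℕ} (k : Fin n) (i : Fin 3) {v : Cf n → ℝ} (hv : ContDiff ℝ (⊤ : ℕ∞) v) :
    ContDiff ℝ (⊤ : ℕ∞) (dv k i v) := by
  unfold dv
  exact (hv.fderiv_right (m := ((⊤ : ℕ∞) : WithTop ℕ∞)) (by simp)).clm_apply contDiff_const

theorem CID_int {n : ℕ} {f : Cf n → ℝ} (hf : Continuous f) (hc : HasCompactSupport f) :
    Integrable f := hf.integrable_of_hasCompactSupport hc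

theorem st_CID (h1 : ST_QH) (h2 : ST_HF) (h3 : ST_STB) (h4 : ST_INT) : ST_CID := by
  intro n Z E g u hg hu
  obtain ⟨hF, hP, -⟩ := h3 n g u hg hu
  obtain ⟨hFP, -, -⟩ := h3 n g (fun s => Pg g (u s)) hg hP
  rw [(h1 n Z _ _ hF hP).1]
  unfold ip sq
  rw [Finset.mul_sum, Finset.mul_sum, ← Finset.sum_sub_distrib, ← Finset.sum_sub_distrib]
  refine Finset.sum_congr rfl fun s _ => ?_
  -- smoothness and supports
  have cu := (hu s).1
  have cF : Continuous (Fg g (u s)) := (hF s).1.continuous
  have cP : Continuous (Pg g (u s)) := (hP s).1.continuous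
  have kP : HasCompactSupport (Pg g (u s)) := (hP s).2
  have cFP : Continuous (Fg g (Pg g (u s))) := (hFP s).1.continuous
  have kFP : HasCompactSupport (Fg g (Pg g (u s))) := (hFP s).2
  have i1 : Integrable (fun x => Pg g (u s) x ^ 2) := by
    have h : Integrable (fun x => Pg g (u s) x * Pg g (u s) x) :=
      CID_int (cP.mul cP) (kP.mul_right)
    refine h.congr (Eventually.of_forall fun x => ?_)
    simp only
    ring
  have i2 : Integrable (fun x => Fg g (u s) x * Pg g (u s) x) :=
    CID_int (cF.mul cP) (kP.mul_left)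
  have i3 : Integrable (fun x => Fg g (Pg g (u s)) x *
      (∑ k, ∑ i, dv k i (dv k i (u s)) x)) := by
    refine CID_int (cFP.mul ?_) (kFP.mul_right)
    exact continuous_finsetSum _ fun k _ => continuous_finsetSum _ fun i _ =>
      (CID_dv k i (CID_dv k i cu)).continuous
  have i4 := (h4 n (Fg g (Pg g (u s))) (u s) (hFP s).1 (hFP s).2 (hu s).1 (hu s).2).1
  have i5 := (h4 n (Fg g (Pg g (u s))) (u s) (hFP s).1 (hFP s).2 (hu s).1 (hu s).2).2.1
  have i6 : Integrable (fun x => Fg g (Pg g (u s)) x * u s x) :=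
    CID_int (cFP.mul cu.continuous) (kFP.mul_right)
  have i7 : Integrable (fun x => Fg g (Pg g (u s)) x * hm Z (u s) x) := by
    refine (((i5.sub (i4.const_mul Z)).sub i3)).congr (Eventually.of_forall fun x => ?_)
    simp only [Pi.sub_apply, hm]
    ring
  have i8 : Integrable (fun x => Fg g (Pg g (u s)) x * (hm Z (u s) x - E * u s x)) := by
    refine (i7.sub (i6.const_mul E)).congr (Eventually.of_forall fun x => ?_)
    simp only [Pi.sub_apply]
    ring
  have i9 : Integrable (fun x => Pg g (u s) x * hm Z (Fg g (u s)) x) := by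
    refine (i7.sub (i1.const_mul 2)).congr (Eventually.of_forall fun x => ?_)
    simp only [Pi.sub_apply]
    rw [h2 n Z g (u s) x hg cu]
    unfold Fg
    ring
  rw [← integral_const_mul, ← integral_const_mul, ← integral_sub i9 (i2.const_mul E),
    ← integral_sub i8 (i1.const_mul 2)]
  refine integral_congr_ae (Eventually.of_forall fun x => ?_)
  simp only
  rw [h2 n Z g (u s) x hg cu]
  unfold Fg
  ring

end Pool.Agent.Helper95.PW
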